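import Pool.Agent.helper21.OE.SpecC

/-! Project OE (MP_2e0e07_nt), row CJA: conjugation and `act`. -/

set_option autoImplicit false

namespace Pool.Agent.OE

open MvPolynomial Matrix

theorem CJA_gen {A : Type} [CommRing A] (w w' : Fin 4 → ℕ) (v : Fin 4 → MvPolynomial (Fin 4) A)
    (hv : ∀ i, IsWeightedHomogeneous w' (v i) (w i)) (k : ℕ) (P : MvPolynomial (Fin 4) A)
    (hP : IsWeightedHomogeneous w P k) : IsWeightedHomogeneous w' (aeval v P) k := by
  have h1 : aeval v P = ∑ d ∈ P.support, aeval v (monomial d (coeff d P)) := by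
    rw [← map_sum, ← P.as_sum]
  rw [h1]
  refine IsWeightedHomogeneous.sum _ _ _ (fun d hd => ?_)
  rw [aeval_monomial]
  have h2 : Finsupp.weight w d = k := hP (by rwa [mem_support_iff] at hd)
  have h3 : IsWeightedHomogeneous w' (∏ i ∈ d.support, v i ^ d i) (∑ i ∈ d.support, d i • w i) :=
    IsWeightedHomogeneous.prod _ _ _ (fun i _ => (hv i).pow (d i))
  have h4 := (isWeightedHomogeneous_C w' (coeff d P)).mul h3
  rw [zero_add] at h4
  have h5 : (∑ i ∈ d.support, d i • w i) = k := by
    rw [← h2, Finsupp.weight_apply]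
    rfl
  rw [h5] at h4
  exact h4

theorem CJA_X {A : Type} [CommRing A] (w' : Fin 4 → ℕ) (i : Fin 4) (n : ℕ) (h : w' i = n) :
    IsWeightedHomogeneous w' (X i : MvPolynomial (Fin 4) A) n :=
  h ▸ isWeightedHomogeneous_X A w' i

theorem CJA_sw {A : Type} [CommRing A] : (sw (X 0 : Pol A) = X 2) ∧ (sw (X 1 : Pol A) = X 3) ∧
    (sw (X 2 : Pol A) = X 0) ∧ (sw (X 3 : Pol A) = X 1) := by
  refine ⟨?_, ?_, ?_, ?_⟩ <;> · rw [sw, aeval_X]; rfl

theorem CJA : CJA_stmt := by
  refine ⟨?_, ?_, ?_, ?_, ?_⟩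
  · intro d t A _ f g P
    have e : (sw.comp (act f g) : Pol A →ₐ[A] Pol A) = (act f (cm g)).comp sw := by
      refine MvPolynomial.algHom_ext fun i => ?_
      obtain ⟨s0, s1, s2, s3⟩ := CJA_sw (A := A)
      have hC : ∀ a : A, sw (C a : Pol A) = C a := fun a => (sw : Pol A →ₐ[A] Pol A).commutes a
      fin_cases i
      · show sw (act f g (X 0)) = act f (cm g) (sw (X 0))
        rw [s0, act, aeval_X, act, aeval_X]
        show sw (C (f (g 0 0)) * X 0 + C (f (g 1 0)) * X 1) =
          C (f (star (star (g 0 0)))) * X 2 + C (f (star (star (g 1 0)))) * X 3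
        rw [map_add, map_mul, map_mul, hC, hC, s0, s1, star_star, star_star]
      · show sw (act f g (X 1)) = act f (cm g) (sw (X 1))
        rw [s1, act, aeval_X, act, aeval_X]
        show sw (C (f (g 0 1)) * X 0 + C (f (g 1 1)) * X 1) =
          C (f (star (star (g 0 1)))) * X 2 + C (f (star (star (g 1 1)))) * X 3
        rw [map_add, map_mul, map_mul, hC, hC, s0, s1, star_star, star_star]
      · show sw (act f g (X 2)) = act f (cm g) (sw (X 2))
        rw [s2, act, aeval_X, act, aeval_X]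
        show sw (C (f (star (g 0 0))) * X 2 + C (f (star (g 1 0))) * X 3) =
          C (f (star (g 0 0))) * X 0 + C (f (star (g 1 0))) * X 1
        rw [map_add, map_mul, map_mul, hC, hC, s2, s3]
      · show sw (act f g (X 3)) = act f (cm g) (sw (X 3))
        rw [s3, act, aeval_X, act, aeval_X]
        show sw (C (f (star (g 0 1))) * X 2 + C (f (star (g 1 1))) * X 3) =
          C (f (star (g 0 1))) * X 0 + C (f (star (g 1 1))) * X 1
        rw [map_add, map_mul, map_mul, hC, hC, s2, s3]
    exact DFunLike.congr_fun e P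
  · intro A _ k P hP
    refine ⟨CJA_gen _ _ _ ?_ k P hP.2, CJA_gen _ _ _ ?_ k P hP.1⟩
    · intro i
      fin_cases i
      · exact CJA_X _ 2 0 rfl
      · exact CJA_X _ 3 0 rfl
      · exact CJA_X _ 0 1 rfl
      · exact CJA_X _ 1 1 rfl
    · intro i
      fin_cases i
      · exact CJA_X _ 2 1 rfl
      · exact CJA_X _ 3 1 rfl
      · exact CJA_X _ 0 0 rfl
      · exact CJA_X _ 1 0 rfl
  · intro A _ P
    obtain ⟨s0, s1, s2, s3⟩ := CJA_sw (A := A)
    have e : (sw.comp sw : Pol A →ₐ[A] Pol A) = AlgHom.id A (Pol A) := by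
      refine MvPolynomial.algHom_ext fun i => ?_
      fin_cases i
      · show sw (sw (X 0)) = X 0
        rw [s0, s2]
      · show sw (sw (X 1)) = X 1
        rw [s1, s3]
      · show sw (sw (X 2)) = X 2
        rw [s2, s0]
      · show sw (sw (X 3)) = X 3
        rw [s3, s1]
    exact DFunLike.congr_fun e P
  · intro A _ P
    obtain ⟨s0, s1, s2, s3⟩ := CJA_sw (A := A)
    have e : ((eval ![0, 1, 0, 1]).comp (sw : Pol A →ₐ[A] Pol A).toRingHom : Pol A →+* A) = eval ![0, 1, 0, 1] := by
      refine MvPolynomial.ringHom_ext (fun a => ?_) fun i => ?_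
      · show eval ![0, 1, 0, 1] (sw (C a)) = eval ![0, 1, 0, 1] (C a)
        rw [show sw (C a : Pol A) = C a from (sw : Pol A →ₐ[A] Pol A).commutes a]
      · fin_cases i
        · show eval ![0, 1, 0, 1] (sw (X 0)) = eval ![0, 1, 0, 1] (X 0)
          rw [s0, eval_X, eval_X]
          rfl
        · show eval ![0, 1, 0, 1] (sw (X 1)) = eval ![0, 1, 0, 1] (X 1)
          rw [s1, eval_X, eval_X]
          rfl
        · show eval ![0, 1, 0, 1] (sw (X 2)) = eval ![0, 1, 0, 1] (X 2)
          rw [s2, eval_X, eval_X]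
          rfl
        · show eval ![0, 1, 0, 1] (sw (X 3)) = eval ![0, 1, 0, 1] (X 3)
          rw [s3, eval_X, eval_X]
          rfl
    exact DFunLike.congr_fun e P
  · intro A B _ _ ρ P
    obtain ⟨s0, s1, s2, s3⟩ := CJA_sw (A := A)
    obtain ⟨r0, r1, r2, r3⟩ := CJA_sw (A := B)
    have e : ((map ρ).comp (sw : Pol A →ₐ[A] Pol A).toRingHom : Pol A →+* Pol B) =
        (sw : Pol B →ₐ[B] Pol B).toRingHom.comp (map ρ) := by
      refine MvPolynomial.ringHom_ext (fun a => ?_) fun i => ?_
      · show map ρ (sw (C a)) = sw (map ρ (C a))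
        rw [show sw (C a : Pol A) = C a from (sw : Pol A →ₐ[A] Pol A).commutes a, map_C,
          show sw (C (ρ a) : Pol B) = C (ρ a) from (sw : Pol B →ₐ[B] Pol B).commutes (ρ a)]
      · fin_cases i
        · show map ρ (sw (X 0)) = sw (map ρ (X 0))
          rw [s0, map_X, map_X, r0]
        · show map ρ (sw (X 1)) = sw (map ρ (X 1))
          rw [s1, map_X, map_X, r1]
        · show map ρ (sw (X 2)) = sw (map ρ (X 2))
          rw [s2, map_X, map_X, r2]
        · show map ρ (sw (X 3)) = sw (map ρ (X 3))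
          rw [s3, map_X, map_X, r3]
    exact DFunLike.congr_fun e P

end Pool.Agent.OE
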