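import Pool.Agent.helper21.OE.SpecA

/-! # Row oe:PRV (MP_2e0e07_nt) -/

set_option autoImplicit false

namespace Pool.Agent.OE

open MvPolynomial Matrix

/-- the unipotent matrix as an element of `GL₂` -/
def PRV_G {d t : ℤ} (x : Oz d t) : GO d t where
  val := !![1, x; 0, 1]
  inv := !![1, -x; 0, 1]
  val_inv := by
    rw [Matrix.mul_fin_two, Matrix.one_fin_two]
    simp
  inv_val := by
    rw [Matrix.mul_fin_two, Matrix.one_fin_two]
    simp

theorem PRV_h {d t : ℤ} (x y : Oz d t) (γ : GO d t) :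
    (PRV_G x * γ * (PRV_G y)⁻¹).val 0 1 = (γ.val 0 1 + x * γ.val 1 1) - (γ.val 0 0 + x * γ.val 1 0) * y ∧
    (PRV_G x * γ * (PRV_G y)⁻¹).val 1 0 = γ.val 1 0 ∧
    (PRV_G x * γ * (PRV_G y)⁻¹).val 1 1 = γ.val 1 1 - γ.val 1 0 * y := by
  have e : (PRV_G x * γ * (PRV_G y)⁻¹).val = !![1, x; 0, 1] * γ.val * !![1, -y; 0, 1] := rfl
  rw [e]
  refine ⟨?_, ?_, ?_⟩
  · simp only [Matrix.mul_apply, Fin.sum_univ_two, Matrix.of_apply, Matrix.cons_val', Matrix.cons_val_zero,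
      Matrix.cons_val_one, Matrix.cons_val_fin_one]
    ring
  · simp only [Matrix.mul_apply, Fin.sum_univ_two, Matrix.of_apply, Matrix.cons_val', Matrix.cons_val_zero,
      Matrix.cons_val_one, Matrix.cons_val_fin_one]
    ring
  · simp only [Matrix.mul_apply, Fin.sum_univ_two, Matrix.of_apply, Matrix.cons_val', Matrix.cons_val_zero,
      Matrix.cons_val_one, Matrix.cons_val_fin_one]
    ring

theorem PRV (hREP : REP_stmt) (hREQ : REQ_stmt) (hDTU : DTU_stmt) : PRV_stmt := by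
  intro d t hE ℓ hℓ γ hγ
  obtain ⟨h00, h11, -⟩ := hDTU d t hE ℓ hℓ γ (Or.inl hγ)
  obtain ⟨p, hp⟩ := (hREQ d t ℓ hℓ _).1 h00
  obtain ⟨q, hq⟩ := (hREQ d t ℓ hℓ _).1 h11
  have hex : ∀ x : Fin ℓ × Fin ℓ, ∃ y : Fin ℓ × Fin ℓ, ((ℓ : ℕ) : Oz d t) ∣
      (γ.val 0 1 + rep d t x * γ.val 1 1) - (γ.val 0 0 + rep d t x * γ.val 1 0) * rep d t y := by
    intro x
    obtain ⟨y, hy⟩ := (hREP d t ℓ hℓ).1 (p * (γ.val 0 1 + rep d t x * γ.val 1 1))
    refine ⟨y, ?_⟩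
    have e : (γ.val 0 1 + rep d t x * γ.val 1 1) - (γ.val 0 0 + rep d t x * γ.val 1 0) * rep d t y =
        (γ.val 0 0 + rep d t x * γ.val 1 0) * (p * (γ.val 0 1 + rep d t x * γ.val 1 1) - rep d t y) -
          (γ.val 0 0 * p - 1) * (γ.val 0 1 + rep d t x * γ.val 1 1) -
          γ.val 1 0 * (rep d t x * p * (γ.val 0 1 + rep d t x * γ.val 1 1)) := by ring
    rw [e]
    exact dvd_sub (dvd_sub (Dvd.dvd.mul_left hy _) (Dvd.dvd.mul_right hp _)) (Dvd.dvd.mul_right hγ _)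
  choose σ hσ using hex
  have hinj : Function.Injective σ := by
    intro x x' hxx
    apply (hREP d t ℓ hℓ).2
    have h1 := hσ x
    have h2 := hσ x'
    rw [← hxx] at h2
    have h3 := dvd_sub h1 h2
    have e : rep d t x - rep d t x' =
        ((γ.val 0 1 + rep d t x * γ.val 1 1 - (γ.val 0 0 + rep d t x * γ.val 1 0) * rep d t (σ x)) -
          (γ.val 0 1 + rep d t x' * γ.val 1 1 - (γ.val 0 0 + rep d t x' * γ.val 1 0) * rep d t (σ x))) * q +
          γ.val 1 0 * ((rep d t x - rep d t x') * rep d t (σ x) * q) -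
          (γ.val 1 1 * q - 1) * (rep d t x - rep d t x') := by ring
    rw [e]
    exact dvd_sub (dvd_add (Dvd.dvd.mul_right h3 _) (Dvd.dvd.mul_right hγ _)) (Dvd.dvd.mul_right hq _)
  refine ⟨Equiv.ofBijective σ (Finite.injective_iff_bijective.1 hinj), fun x => ?_⟩
  have hh := PRV_h (rep d t x) (rep d t (σ x)) γ
  refine ⟨PRV_G (rep d t x) * γ * (PRV_G (rep d t (σ x)))⁻¹, ?_, hh.2.1, hh.2.2, ?_⟩
  · rw [hh.1]
    exact hσ x
  · have e : PRV_G (rep d t x) * γ = PRV_G (rep d t x) * γ * (PRV_G (rep d t (σ x)))⁻¹ * PRV_G (rep d t (σ x)) := by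
      rw [inv_mul_cancel_right]
    exact congrArg Units.val e

end Pool.Agent.OE
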