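import Pool.Agent.helper21.OE.SpecA

/-!
# Row oe:TR1 (adapted from helper90/OD/TR1.lean)
-/

namespace Pool.Agent.OE

open MvPolynomial Matrix

/-- TR1: transport of the Hecke terms on the left. -/
theorem TR1 (hACM : ACM_stmt) (hACS : ACS_stmt) (hNRU : NRU_stmt) : TR1_stmt := by
  intro d t ht A _ f k N χ φ hφ M h hN u v
  have hdet : IsUnit h.val.det := (Matrix.isUnit_iff_isUnit_det _).mp h.isUnit
  have h3 : f (h.val.det * star h.val.det) = 1 := by rw [hNRU d t ht _ hdet, map_one]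
  obtain ⟨x, hx⟩ : ∃ x : Vec d t, x = M *ᵥ u := ⟨_, rfl⟩
  obtain ⟨y, hy⟩ : ∃ y : Vec d t, y = M *ᵥ v := ⟨_, rfl⟩
  have h1 : (h.val * M) *ᵥ u = h.val *ᵥ x := by rw [hx, Matrix.mulVec_mulVec]
  have h2 : (h.val * M) *ᵥ v = h.val *ᵥ y := by rw [hy, Matrix.mulVec_mulVec]
  rw [h1, h2, ← hx, ← hy]
  have h4 : φ (h.val *ᵥ x) (h.val *ᵥ y) = χ (h.val 1 1) • act f h.val (φ x y) :=
    hφ.equiv h x y hN
  obtain ⟨P, hP⟩ : ∃ P : Pol A, P = φ x y := ⟨_, rfl⟩
  have h5 : BiHom k P := by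
    rw [hP]
    exact hφ.hom x y
  have h6 : act f h.val.adjugate (act f h.val P) = P := by
    rw [← hACM f h.val.adjugate h.val P, Matrix.adjugate_mul, hACS f _ k P h5, h3, one_pow, one_smul]
  rw [h4, ← hP, Matrix.adjugate_mul_distrib, hACM f M.adjugate h.val.adjugate]
  have h7 : act f h.val.adjugate (χ (h.val 1 1) • act f h.val P) =
      χ (h.val 1 1) • act f h.val.adjugate (act f h.val P) :=
    (act f h.val.adjugate).toLinearMap.map_smul _ _
  rw [h7, h6]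
  exact (act f M.adjugate).toLinearMap.map_smul _ _

end Pool.Agent.OE
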