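import Pool.Agent.helper21.OE.SpecA

/-!
# Project OE, row TR2: transformation on the right (adapted from helper91/OD/TR2.lean)
-/

namespace Pool.Agent.OE

open MvPolynomial Matrix

theorem TR2 (hACM : ACM_stmt) (hACH : ACH_stmt) (hACS : ACS_stmt) (hNRU : NRU_stmt) :
    TR2_stmt := by
  intro d t ht A _ f k P hP M γ
  have hdet : IsUnit γ.val.det := (Matrix.isUnit_iff_isUnit_det _).mp γ.isUnit
  have h1 : γ.val * (M * γ.val).adjugate = (γ.val.det • (1 : Mat d t)) * M.adjugate := by
    rw [Matrix.adjugate_mul_distrib, ← mul_assoc, Matrix.mul_adjugate]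
  rw [← hACM, h1, hACM, hACS f γ.val.det k _ (hACH f M.adjugate k P hP), hNRU d t ht _ hdet,
    map_one, one_pow, one_smul]

end Pool.Agent.OE
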